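import Pool.Agent.W2helper58.IR.Stm

/-!
# Public-key encryption relative to many oracles: the pieces

Every gauge `f` which grows faster than all powers of `log N` leaves room for planting a
public-key encryption scheme: the set of the oracles relative to which public-key encryption
exists is not null for `f`.

The oracle `B` is random; for every `n` it contains a table of public keys (for all secret keys
`r` of length `λ n`) and a table of ciphertexts (for all public keys `k`, bits `b` and random
strings `s` of length `λ n`). Planted are the bits `dpos n r c`, which tell whether `c` is a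
ciphertext of `1` for the public key of `r`, and `n` bits which tell `λ n`.

Every `P_...` below is one piece; prove `theorem p_... : P_...` in a file of your own.
-/

set_option autoImplicit false

namespace Pool.Agent.W2helper58.PW

open Pool.Agent.NPC Pool.Agent.H620R2.Gauge Pool.Agent.W2helper57.LC MeasureTheory
  Pool.Agent.W2helper58.IR

/-! ### The finite model -/

/-- the tables: the public key of a secret key, and the ciphertext for a public key, a bit and a
random string -/
abbrev Tab (R S K C : Type) : Type := (R → K) × (K → Bool → S → C)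

/-- the questions: a public key, a ciphertext, and whether `c` is a ciphertext of `1` -/
inductive Qn (R S K C : Type) : Type
  | p : R → Qn R S K C
  | e : K → Bool → S → Qn R S K C
  | d : R → C → Qn R S K C

section

variable {R S K C : Type}

/-- `c` is a ciphertext of `1` for the public key of `r` -/
def isD (T : Tab R S K C) (r : R) (c : C) : Prop := ∃ s, c = T.2 (T.1 r) true s

/-- the tables give the same answer to the question -/
def Agr (T T' : Tab R S K C) : Qn R S K C → Prop
  | Qn.p r => T'.1 r = T.1 r
  | Qn.e k b s => T'.2 k b s = T.2 k b s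
  | Qn.d r c => (isD T' r c ↔ isD T r c)

/-- the questions which are related to the secret key `r` and the random string `s` -/
def Zq (T : Tab R S K C) (r : R) (s : S) : Qn R S K C → Prop
  | Qn.p _ => False
  | Qn.e k _ s' => k = T.1 r ∧ s' = s
  | Qn.d r' _ => T.1 r' = T.1 r

end

/-- An adversary with at most `t` questions: for a public key and a ciphertext it asks the
questions `Q` and accepts or not. -/
structure Adv (R S K C : Type) (t : ℕ) : Type where
  /-- the questions -/
  Q : K → C → Tab R S K C → Finset (Qn R S K C)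
  /-- acceptance -/
  out : K → C → Tab R S K C → Prop
  loc : ∀ k c T T', (∀ q ∈ Q k c T, Agr T T' q) → Q k c T' = Q k c T ∧ (out k c T' ↔ out k c T)
  card : ∀ k c T, (Q k c T).card ≤ t

open Classical in
/-- PIECE SEC1. The adversary rarely asks a question related to `r` and `s`, given the public key
of `r` and a ciphertext made with `s`.

Proof. Fix `r`, `s`, `b`. The map `(T, z, z') ↦ (T', k, c)` with `k = T.1 r`, `c = T.2 k b s`, and
`T'` equal to `T` with `T.1 r` replaced by `z` and then `T.2 k b s` by `z'`, is a bijection of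
`Tab × K × C` to itself. So the sum of `g T (T.1 r) (T.2 (T.1 r) b s)` over `T` is
`1 / (|K| |C|)` times the sum over `T', k, c` of `g (prog T') k c`, where `prog T'` is `T'` with
`T'.1 r := k`, `T'.2 k b s := c`. If `Q k c T'` contains neither `p r`, nor a question `e k _ s`,
nor a question `d r' _` with `r' = r` or `T'.1 r' = k`, then `prog T'` agrees with `T'` on
`Q k c T'`, so `Q k c (prog T') = Q k c T'`, and it contains no question of `Zq (prog T') r s`.
For given `T', k, c` every question in `Q k c T'` excludes at most `N` pairs `(r, s)`, unless `k`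
is one of the values of `T'.1`, which happens for at most `N` of the `k`. -/
def P_sec1 : Prop := ∀ (R S K C : Type) [Fintype R] [Fintype S] [Fintype K] [Fintype C]
  (N t : ℕ) (a : Adv R S K C t) (b : Bool), Fintype.card R = N → Fintype.card S = N →
  Fintype.card K = N ^ 3 → 0 < N →
  ∑ T : Tab R S K C, ∑ r : R, ∑ s : S,
    (if ∃ q ∈ a.Q (T.1 r) (T.2 (T.1 r) b s) T, Zq T r s q then (1 : ℝ) else 0) ≤
    (t * N + 1) * Fintype.card (Tab R S K C)

open Classical in
/-- PIECE SEC2. The same for the public key of another `r'` and a ciphertext made with `s'`: for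
given `T` with injective `T.1` every question of the adversary is related to at most `N` pairs
`(r, s)`; the tables with `T.1` not injective are a fraction of at most `N ^ 2 / |K| = 1 / N`. -/
def P_sec2 : Prop := ∀ (R S K C : Type) [Fintype R] [Fintype S] [Fintype K] [Fintype C]
  (N t : ℕ) (a : Adv R S K C t) (b : Bool) (r' : R) (s' : S), Fintype.card R = N →
  Fintype.card S = N → Fintype.card K = N ^ 3 → 0 < N →
  ∑ T : Tab R S K C, ∑ r : R, ∑ s : S,
    (if ∃ q ∈ a.Q (T.1 r') (T.2 (T.1 r') b s') T, Zq T r s q then (1 : ℝ) else 0) ≤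
    (t * N + N) * Fintype.card (Tab R S K C)

open Classical in
/-- The second moment of the advantage. -/
def P_sec : Prop := ∀ (R S K C W : Type) [Fintype R] [Fintype S] [Fintype K] [Fintype C]
  [Fintype W] (N t : ℕ) (a : W → Adv R S K C t), Fintype.card R = N → Fintype.card S = N →
  Fintype.card K = N ^ 3 → 0 < N →
  ∑ T : Tab R S K C, (∑ r : R, ∑ s : S, ∑ w : W,
    ((if (a w).out (T.1 r) (T.2 (T.1 r) true s) T then (1 : ℝ) else 0) -
      (if (a w).out (T.1 r) (T.2 (T.1 r) false s) T then (1 : ℝ) else 0))) ^ 2 ≤
    (4 * t + 5) * N ^ 3 * (Fintype.card W) ^ 2 * Fintype.card (Tab R S K C)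

/-- PIECE SEC3. Let `X T r s w` be the summand, between `-1` and `1`, and let `τ T` be `T` with
`T.2 (T.1 r) false s` and `T.2 (T.1 r) true s` exchanged (an involution, for fixed `r`, `s`). The
square is the sum of `X T r s w * X T r' s' w'` over both triples, so it suffices to bound the
sum over `T` of `(X T r s w * X T r' s' w' + X (τ T) r s w * X (τ T) r' s' w') / 2`. If none of the
four question sets of `a w` on `(T.1 r, T.2 (T.1 r) b s)` and of `a w'` on
`(T.1 r', T.2 (T.1 r') b s')` contains a question of `Zq T r s`, and `s' ≠ s`, then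
`X (τ T) r s w = - X T r s w` and `X (τ T) r' s' w' = X T r' s' w'` (`τ T` and `T` agree on all
questions outside `Zq T r s`), and the sum of the two products is `0`; otherwise it is at most
`2`. Use SEC1 and SEC2, and `s' = s` for `N ^ 3` of the quadruples. -/
def P_sec3 : Prop := P_sec1 → P_sec2 → P_sec

open Classical in
/-- PIECE COR. A ciphertext of `0` is rarely also a ciphertext of `1`. -/
def P_cor : Prop := ∀ (R S K C : Type) [Fintype R] [Fintype S] [Fintype K] [Fintype C]
  (N : ℕ), Fintype.card R = N → Fintype.card S = N → Fintype.card C = N ^ 3 → 0 < N →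
  ∑ T : Tab R S K C, ∑ r : R, ∑ s : S,
    (if isD T r (T.2 (T.1 r) false s) then (1 : ℝ) else 0) ≤ Fintype.card (Tab R S K C)

/-! ### The oracle -/

/-- the bit number `i` of the public key of `r` -/
def ppos (n : ℕ) (r : List Bool) (i : ℕ) : List Bool :=
  false :: true :: (un n ++ false :: (r ++ un i))

/-- the bit number `i` of the ciphertext -/
def epos (n : ℕ) (k : List Bool) (b : Bool) (s : List Bool) (i : ℕ) : List Bool :=
  false :: false :: (un n ++ false :: (k ++ b :: (s ++ un i)))

/-- the question whether `c` is a ciphertext of `1` -/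
def dpos (n : ℕ) (r c : List Bool) : List Bool := true :: false :: (un n ++ false :: (r ++ c))

/-- the bits which tell `λ n` -/
def lpos (n i : ℕ) : List Bool := true :: true :: (un n ++ false :: un i)

/-- `λ n`, read from the oracle -/
def lamA (A : Oracle) (n : ℕ) : ℕ := ((List.range n).filter fun i => A (lpos n i)).length

/-- the public key -/
def pkey (A : Oracle) (n l : ℕ) (r : List Bool) : List Bool :=
  (List.range (3 * l)).map fun i => A (ppos n r i)

/-- the ciphertext -/
def ctxt (A : Oracle) (n l : ℕ) (k : List Bool) (b : Bool) (s : List Bool) : List Bool :=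
  (List.range (3 * l)).map fun i => A (epos n k b s i)

/-- public key, as a function of `⟨w, 1^n⟩` -/
def fgp (A : Oracle) (x : List Bool) : List Bool :=
  pkey A (unpair x).2.length (lamA A (unpair x).2.length)
    ((unpair x).1.take (lamA A (unpair x).2.length))

/-- secret key, as a function of `⟨w, 1^n⟩` -/
def fgs (A : Oracle) (x : List Bool) : List Bool :=
  (unpair x).1.take (lamA A (unpair x).2.length)

/-- encryption, as a function of `⟨s, ⟨1^n, b k⟩⟩` -/
def fenc (A : Oracle) (x : List Bool) : List Bool :=
  ctxt A (unpair (unpair x).2).1.length (lamA A (unpair (unpair x).2).1.length)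
    (unpair (unpair x).2).2.tail ((unpair (unpair x).2).2.headD false)
    ((unpair x).1.take (lamA A (unpair (unpair x).2).1.length))

/-- decryption, as a function of `⟨t, ⟨1^n, ⟨sk, c⟩⟩⟩` -/
def fdec (A : Oracle) (x : List Bool) : List Bool :=
  [A (dpos (unpair (unpair x).2).1.length (unpair (unpair (unpair x).2).2).1
    (unpair (unpair (unpair x).2).2).2)]

/-- PIECE UF. Use `s_SEQ`, `s_TT` (`W2helper57/LC/Ufp.lean`) and the `Poly` calculus. -/
def P_uf : Prop := UFP fgp ∧ UFP fgs ∧ UFP fenc ∧ UFP fdec

/-- the planted positions, for the function `l` -/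
def Tp (l : ℕ → ℕ) : Set (List Bool) := {u | (∃ n i, i < n ∧ u = lpos n i) ∨
  ∃ n r c, r.length = l n ∧ c.length = 3 * l n ∧ u = dpos n r c}

open Classical in
/-- PIECE SP. (`T` has at most `n + 2 ^ (4 l n)` strings for every `n`, all of length at least
`n`; `str i` has length at most `Nat.log 2 (i + 1)`; compare `le_idx`, `idx_str`,
`str_injective`.) -/
def P_sp : Prop := ∀ (l : ℕ → ℕ) (N : ℕ),
  ((Finset.range N).filter (fun i => str i ∈ Tp l)).card ≤
    ∑ n ∈ Finset.range (Nat.log 2 (N + 1) + 1), (n + 2 ^ (4 * l n))

/-- PIECE NUM. Put `g m = inf {f N : N ≥ 2 ^ (m - 2)}` and `l n` about `min n ((log₂ (g n)) / 8)`. -/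
def P_num : Prop := ∀ f : ℕ → ℝ,
  (∀ C : ℕ, ∀ᶠ N : ℕ in Filter.atTop, (Real.logb 2 N) ^ C ≤ f N) →
  ∃ l : ℕ → ℕ, (∀ n, l n ≤ n) ∧ (∀ C : ℕ, ∀ᶠ n : ℕ in Filter.atTop, n ^ C ≤ 2 ^ l n) ∧
    ∃ c : ℝ, ∀ N : ℕ,
      ((∑ n ∈ Finset.range (Nat.log 2 (N + 1) + 1), (n + 2 ^ (4 * l n)) : ℕ) : ℝ) ≤ f N + c

/-! ### Measure -/

open Classical in
/-- `B`, with the strings of `X` replaced by `ω` -/
noncomputable def put (X : Finset (List Bool)) (ω : X → Bool) (B : Oracle) : Oracle :=
  fun u => if h : u ∈ X then ω ⟨u, h⟩ else B u

/-- PIECE RES. Resampling of finitely many bits. -/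
def P_res : Prop := ∀ (X : Finset (List Bool)) (h : Oracle → ℝ) (c : ℝ),
  (∃ b : ℕ, ∀ A A' : Oracle, (∀ u : List Bool, u.length < b → A u = A' u) → h A = h A') →
  (∀ B : Oracle, ∑ ω : X → Bool, h (put X ω B) ≤ c * 2 ^ X.card) →
  ∫ B, h B ∂ranO ≤ c

/-- PIECE BC. Markov's inequality and the Borel-Cantelli lemma. -/
def P_bc : Prop := ∀ (l : ℕ → ℕ) (h : ℕ → Oracle → ℝ) (q : Polynomial ℕ),
  (∀ C : ℕ, ∀ᶠ n : ℕ in Filter.atTop, n ^ C ≤ 2 ^ l n) →
  (∀ n B, 0 ≤ h n B) →
  (∀ n, ∃ b : ℕ, ∀ A A' : Oracle, (∀ u : List Bool, u.length < b → A u = A' u) →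
    h n A = h n A') →
  (∀ n, ∫ B, h n B ∂ranO ≤ q.eval n / 2 ^ l n) →
  ∀ᵐ B ∂ranO, Negl fun n => h n B

end Pool.Agent.W2helper58.PW
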